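import Pool.Agent.X241.Oct.Cert

/-!
# A 5-chromatic unit-distance graph with 58 vertices in a normed plane

The unit disc is the octagon `|x| ≤ 4`, `|y| ≤ 3`, `|x| + |y| ≤ 5`. Its boundary contains the `20`
lattice points `(±4, 0), (±4, ±1), (±3, ±2), (±2, ±3), (±1, ±3), (0, ±3)`, so that lattice points
whose difference is one of these have distance one. Among `58` lattice points near the origin this
gives a graph with `267` edges which has no proper colouring with four colours (a search tree with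
`3267` nodes, checked by the kernel, after the colours of a triangle have been fixed).
-/

set_option autoImplicit false
set_option maxRecDepth 100000

open Pool.Agent.X241.Oct Topology

namespace Pool.Agent.Results.MP_a2d1c1_co.OctagonFiftyEight

/-- `K` is a compact convex set with nonempty interior which is symmetric about the origin. Its
boundary is a centrally symmetric convex curve `C`, and `gauge K` is the norm with unit
circle `C`. -/
def IsUnitDisc (K : Set (ℝ × ℝ)) : Prop :=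
  IsCompact K ∧ Convex ℝ K ∧ (interior K).Nonempty ∧ ∀ p ∈ K, -p ∈ K

/-- `G` is a unit-distance graph with vertex set `V` in the normed plane with unit circle
`C = frontier K`: vertices which are joined have distance `1`, that is, `x - y ∈ C`. -/
def IsUnitDistanceGraph (K : Set (ℝ × ℝ)) (V : Finset (ℝ × ℝ)) (G : SimpleGraph V) : Prop :=
  ∀ x y : V, G.Adj x y → gauge K ((x : ℝ × ℝ) - y) = 1 ∧ (x : ℝ × ℝ) - y ∈ frontier K

/-! ### The octagon -/

/-- the octagon -/
def Oc : Set (ℝ × ℝ) := {p | |p.1| ≤ 4 ∧ |p.2| ≤ 3 ∧ |p.1| + |p.2| ≤ 5}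

theorem oc_closed : IsClosed Oc := by
  have h1 : IsClosed {p : ℝ × ℝ | |p.1| ≤ 4} := isClosed_le (by fun_prop) continuous_const
  have h2 : IsClosed {p : ℝ × ℝ | |p.2| ≤ 3} := isClosed_le (by fun_prop) continuous_const
  have h3 : IsClosed {p : ℝ × ℝ | |p.1| + |p.2| ≤ 5} := isClosed_le (by fun_prop) continuous_const
  exact h1.inter (h2.inter h3)

theorem oc_compact : IsCompact Oc := by
  refine IsCompact.of_isClosed_subset (isCompact_Icc (a := ((-4, -3) : ℝ × ℝ)) (b := (4, 3)))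
    oc_closed ?_
  rintro ⟨x, y⟩ ⟨h1, h2, -⟩
  exact ⟨⟨(abs_le.1 h1).1, (abs_le.1 h2).1⟩, ⟨(abs_le.1 h1).2, (abs_le.1 h2).2⟩⟩

theorem oc_convex : Convex ℝ Oc := by
  rintro ⟨x1, y1⟩ ⟨a1, b1, c1⟩ ⟨x2, y2⟩ ⟨a2, b2, c2⟩ s t hs ht hst
  have hx : |s * x1 + t * x2| ≤ s * |x1| + t * |x2| := by
    refine (abs_add_le _ _).trans ?_
    rw [abs_mul, abs_mul, abs_of_nonneg hs, abs_of_nonneg ht]
  have hy : |s * y1 + t * y2| ≤ s * |y1| + t * |y2| := by
    refine (abs_add_le _ _).trans ?_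
    rw [abs_mul, abs_mul, abs_of_nonneg hs, abs_of_nonneg ht]
  simp only at a1 b1 c1 a2 b2 c2
  refine ⟨?_, ?_, ?_⟩
  · change |s * x1 + t * x2| ≤ 4
    nlinarith
  · change |s * y1 + t * y2| ≤ 3
    nlinarith
  · change |s * x1 + t * x2| + |s * y1 + t * y2| ≤ 5
    nlinarith

theorem oc_nhds : Oc ∈ 𝓝 (0 : ℝ × ℝ) := by
  have h1 : IsOpen {p : ℝ × ℝ | |p.1| < 1 ∧ |p.2| < 1} := by
    have a : IsOpen {p : ℝ × ℝ | |p.1| < 1} := isOpen_lt (by fun_prop) continuous_const
    have b : IsOpen {p : ℝ × ℝ | |p.2| < 1} := isOpen_lt (by fun_prop) continuous_const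
    exact a.inter b
  refine Filter.mem_of_superset (h1.mem_nhds (by simp)) ?_
  rintro ⟨x, y⟩ ⟨h1, h2⟩
  simp only at h1 h2
  exact ⟨by simp only; linarith, by simp only; linarith, by simp only; linarith⟩

theorem oc_disc : IsUnitDisc Oc := by
  refine ⟨oc_compact, oc_convex, ⟨0, mem_interior_iff_mem_nhds.2 oc_nhds⟩, ?_⟩
  rintro ⟨x, y⟩ ⟨h1, h2, h3⟩
  exact ⟨by simpa using h1, by simpa using h2, by simpa using h3⟩

theorem gauge_one {p : ℝ × ℝ} (hp : p ∈ Oc) (h : |p.1| = 4 ∨ |p.2| = 3 ∨ |p.1| + |p.2| = 5) :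
    gauge Oc p = 1 := by
  refine le_antisymm (gauge_le_one_of_mem hp) ?_
  by_contra hlt
  push Not at hlt
  obtain ⟨b, hb0, hb1, q, ⟨q1, q2, q3⟩, hq⟩ :=
    exists_lt_of_gauge_lt (absorbent_nhds_zero oc_nhds) hlt
  have e1 : |p.1| = b * |q.1| := by
    rw [← hq]; change |b * q.1| = _; rw [abs_mul, abs_of_pos hb0]
  have e2 : |p.2| = b * |q.2| := by
    rw [← hq]; change |b * q.2| = _; rw [abs_mul, abs_of_pos hb0]
  have h1 := abs_nonneg q.1
  have h2 := abs_nonneg q.2
  rcases h with h | h | h <;> nlinarith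

/-! ### The graph -/

/-- the test that an integral vector is one of the `20` lattice points of the octagon -/
def unitI (d : ℤ × ℤ) : Bool :=
  decide (d.1.natAbs = 4 ∧ d.2.natAbs ≤ 1 ∨ d.2.natAbs = 3 ∧ d.1.natAbs ≤ 2 ∨
    d.1.natAbs = 3 ∧ d.2.natAbs = 2)

theorem unitI_gauge {d : ℤ × ℤ} (h : unitI d = true) :
    gauge Oc ((d.1 : ℝ), (d.2 : ℝ)) = 1 := by
  have e1 : |(d.1 : ℝ)| = (d.1.natAbs : ℝ) := by
    rw [← Int.cast_abs, Int.abs_eq_natAbs, Int.cast_natCast]
  have e2 : |(d.2 : ℝ)| = (d.2.natAbs : ℝ) := by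
    rw [← Int.cast_abs, Int.abs_eq_natAbs, Int.cast_natCast]
  have h' := of_decide_eq_true h
  rcases h' with ⟨h1, h2⟩ | ⟨h1, h2⟩ | ⟨h1, h2⟩
  · have h3 : (d.2.natAbs : ℝ) ≤ 1 := by exact_mod_cast h2
    refine gauge_one ⟨?_, ?_, ?_⟩ (Or.inl ?_) <;> simp only [e1, e2, h1] <;> push_cast <;> linarith
  · have h3 : (d.1.natAbs : ℝ) ≤ 2 := by exact_mod_cast h2
    refine gauge_one ⟨?_, ?_, ?_⟩ (Or.inr (Or.inl ?_)) <;> simp only [e1, e2, h1] <;>
      push_cast <;> linarith
  · refine gauge_one ⟨?_, ?_, ?_⟩ (Or.inr (Or.inr ?_)) <;> simp only [e1, e2, h1, h2] <;> norm_num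

/-- the vertices -/
def pt (i : ℕ) : ℤ × ℤ := pts.getD i (0, 0)

theorem tbl_unit : ∀ i j : Fin 58, (tbl.getD i 0).testBit j = true →
    unitI ((pt i).1 - (pt j).1, (pt i).2 - (pt j).2) = true := by
  decide +kernel

theorem tbl_symm : ∀ i j : Fin 58, (tbl.getD i 0).testBit j = (tbl.getD j 0).testBit i := by
  decide +kernel

theorem tbl_irrefl : ∀ i : Fin 58, (tbl.getD i 0).testBit i = false := by
  decide +kernel

theorem tbl_lt : ∀ i : Fin 58, tbl.getD i 0 < 2 ^ 58 := by
  decide +kernel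

theorem pt_inj : ∀ i j : Fin 58, pt i = pt j → i = j := by
  decide +kernel

/-- the graph on the indices -/
def H : SimpleGraph (Fin 58) where
  Adj i j := (tbl.getD i 0).testBit j = true
  symm := ⟨fun i j h => by rw [← tbl_symm]; exact h⟩
  loopless := ⟨fun i h => by rw [tbl_irrefl] at h; exact absurd h (by simp)⟩

/-- a colouring with five colours -/
def col : List ℕ :=
  [3, 3, 4, 3, 3, 3, 3, 3, 3, 0, 4, 4, 4, 3, 2, 1, 0, 1, 2, 3, 0, 0, 1, 1, 2, 2, 2, 2, 2, 2,
   2, 1, 0, 1, 0, 2, 1, 0, 1, 0, 1, 0, 1, 0, 1, 1, 0, 0, 1, 1, 0, 0, 0, 1, 1, 0, 0, 0]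

theorem col_ok : ∀ i j : Fin 58, (tbl.getD i 0).testBit j = true →
    (⟨col.getD i 0 % 5, Nat.mod_lt _ (by norm_num)⟩ : Fin 5) ≠
      ⟨col.getD j 0 % 5, Nat.mod_lt _ (by norm_num)⟩ := by
  decide +kernel

theorem H_five : H.Colorable 5 :=
  ⟨SimpleGraph.Coloring.mk (fun i => ⟨col.getD i 0 % 5, Nat.mod_lt _ (by norm_num)⟩)
    fun {i j} h => col_ok i j h⟩

theorem perm4 : ∀ a b c : Fin 4, a ≠ b → a ≠ c → b ≠ c →
    ∃ σ : Equiv.Perm (Fin 4), σ a = 0 ∧ σ b = 1 ∧ σ c = 2 := by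
  decide +kernel

theorem tri : (tbl.getD 0 0).testBit 35 = true ∧ (tbl.getD 0 0).testBit 37 = true ∧
    (tbl.getD 35 0).testBit 37 = true := by
  decide +kernel

theorem H_four : ¬ H.Colorable 4 := by
  rintro ⟨g⟩
  have h1 : g 0 ≠ g 35 := g.valid tri.1
  have h2 : g 0 ≠ g 37 := g.valid tri.2.1
  have h3 : g 35 ≠ g 37 := g.valid tri.2.2
  obtain ⟨σ, s0, s1, s2⟩ := perm4 _ _ _ h1 h2 h3
  let f : ℕ → Fin 4 := fun u => if hu : u < 58 then σ (g ⟨u, hu⟩) else 0
  have hf : ∀ v u, (tbl.getD v 0).testBit u = true → f u ≠ f v := by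
    intro v u h
    have hv : v < 58 := by
      by_contra hv
      have : tbl.getD v 0 = 0 := by
        rw [List.getD_eq_getElem?_getD, List.getElem?_eq_none (by
          have : tbl.length = 58 := by decide +kernel
          omega)]
        rfl
      rw [this, Nat.zero_testBit] at h
      exact absurd h (by simp)
    have hu : u < 58 := by
      by_contra hu
      have h4 := tbl_lt ⟨v, hv⟩
      have h5 : tbl.getD v 0 < 2 ^ u :=
        lt_of_lt_of_le h4 (Nat.pow_le_pow_right (by norm_num) (by omega))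
      rw [Nat.testBit_lt_two_pow h5] at h
      exact absurd h (by simp)
    have hadj : H.Adj ⟨v, hv⟩ ⟨u, hu⟩ := h
    have h6 := g.valid hadj
    simp only [f, hu, hv, dif_pos]
    intro h7
    exact h6 (σ.injective h7).symm
  have key := chk_sound (fun v => tbl.getD v 0) f hf 60 cert (2 ^ 0) (2 ^ 35) (2 ^ 37) 0
    (fun u hu => by
      rw [Nat.testBit_two_pow] at hu
      have : 0 = u := by simpa using hu
      subst this
      exact s0)
    (fun u hu => by
      rw [Nat.testBit_two_pow] at hu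
      have : 35 = u := by simpa using hu
      subst this
      exact s1)
    (fun u hu => by
      rw [Nat.testBit_two_pow] at hu
      have : 37 = u := by simpa using hu
      subst this
      exact s2)
    (fun u hu => by rw [Nat.zero_testBit] at hu; exact absurd hu (by simp))
  have hr := run
  have e35 : (2 : ℕ) ^ 35 = 34359738368 := by norm_num
  have e37 : (2 : ℕ) ^ 37 = 137438953472 := by norm_num
  rw [pow_zero, e35, e37] at key
  rw [key] at hr
  exact absurd hr (by simp)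

/-! ### The result -/

/-- the embedding of the indices -/
noncomputable def emb (i : Fin 58) : ℝ × ℝ := (((pt i).1 : ℝ), ((pt i).2 : ℝ))

theorem emb_inj : Function.Injective emb := by
  intro i j h
  unfold emb at h
  rw [Prod.mk.injEq] at h
  exact pt_inj i j (Prod.ext (by exact_mod_cast h.1) (by exact_mod_cast h.2))

theorem result : ∃ (K : Set (ℝ × ℝ)) (V : Finset (ℝ × ℝ)) (G : SimpleGraph V),
    IsUnitDisc K ∧ IsUnitDistanceGraph K V G ∧ V.card = 58 ∧ G.chromaticNumber = 5 := by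
  classical
  let V : Finset (ℝ × ℝ) := Finset.univ.image emb
  have hV : V.card = 58 := by
    rw [Finset.card_image_of_injective _ emb_inj, Finset.card_univ, Fintype.card_fin]
  have hmem : ∀ i, emb i ∈ V := fun i => Finset.mem_image_of_mem _ (Finset.mem_univ i)
  have hbij : Function.Bijective (fun i : Fin 58 => (⟨emb i, hmem i⟩ : V)) := by
    refine ⟨fun i j h => emb_inj (congrArg Subtype.val h), ?_⟩
    rintro ⟨p, hp⟩
    obtain ⟨i, -, rfl⟩ := Finset.mem_image.1 hp
    exact ⟨i, rfl⟩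
  let e : Fin 58 ≃ V := Equiv.ofBijective _ hbij
  have he : ∀ i, ((e i : V) : ℝ × ℝ) = emb i := fun i => rfl
  let G : SimpleGraph V := H.comap e.symm
  refine ⟨Oc, V, G, oc_disc, ?_, hV, ?_⟩
  · intro x y hxy
    have h1 : H.Adj (e.symm x) (e.symm y) := hxy
    have h2 := tbl_unit _ _ h1
    have h3 := unitI_gauge h2
    have h4 : (x : ℝ × ℝ) - y = (((((pt (e.symm x)).1 - (pt (e.symm y)).1 : ℤ)) : ℝ),
        ((((pt (e.symm x)).2 - (pt (e.symm y)).2 : ℤ)) : ℝ)) := by
      have hx : (x : ℝ × ℝ) = emb (e.symm x) := by rw [← he, e.apply_symm_apply]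
      have hy : (y : ℝ × ℝ) = emb (e.symm y) := by rw [← he, e.apply_symm_apply]
      rw [hx, hy]
      simp only [emb, Prod.mk_sub_mk]
      push_cast
      rfl
    have h5 : gauge Oc ((x : ℝ × ℝ) - y) = 1 := by rw [h4]; exact h3
    exact ⟨h5, (gauge_eq_one_iff_mem_frontier oc_convex oc_nhds).1 h5⟩
  · have h5 : G.Colorable 5 := H_five.of_hom ⟨e.symm, fun {a b} h => h⟩
    have h4 : ¬ G.Colorable 4 := fun h => H_four (h.of_hom ⟨e, fun {a b} hab => by
      change H.Adj (e.symm (e a)) (e.symm (e b))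
      rw [e.symm_apply_apply, e.symm_apply_apply]
      exact hab⟩)
    have h6 := (SimpleGraph.chromaticNumber_eq_iff_colorable_not_colorable (G := G) (n := 4)).2
      ⟨h5, h4⟩
    rw [h6]
    norm_num

end Pool.Agent.Results.MP_a2d1c1_co.OctagonFiftyEight
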